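import Pool.Agent.Lib.MP_b4f117_lc.AT.Final

/-!
# The earlier theorem (two levels, incidence matrices with one outer level) from the new one
-/

set_option autoImplicit false

namespace Pool.Agent.Lib.MP_b4f117_lc.AT

open Pool.Agent.Lib.MP_b4f117_lc.AC

/-- Rename the inputs of a circuit. -/
def mapC {I J : Type} (f : I → J) : Circ I → Circ J
  | .lit i b => .lit (f i) b
  | .gate b n g => .gate b n fun j => mapC f (g j)

theorem mapC_eval {I J : Type} (f : I → J) (x : J → Bool) :
    ∀ C : Circ I, (mapC f C).eval x = C.eval (fun i => x (f i))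
  | .lit i b => by simp [mapC, Circ.eval]
  | .gate true n g => by simp [mapC, Circ.eval, mapC_eval f x]
  | .gate false n g => by simp [mapC, Circ.eval, mapC_eval f x]

theorem mapC_depth {I J : Type} (f : I → J) : ∀ C : Circ I, (mapC f C).depth = C.depth
  | .lit i b => rfl
  | .gate b n g => by simp [mapC, Circ.depth, mapC_depth f]

theorem mapC_size {I J : Type} (f : I → J) : ∀ C : Circ I, (mapC f C).size = C.size
  | .lit i b => rfl
  | .gate b n g => by simp [mapC, Circ.size, mapC_size f]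

/-- The incidence matrix with one outer level as a function on `Fin μ`. -/
def toMat {d ν μ : ℕ} (x : Form 1 d ν μ) : Mat d ν μ := fun p => x (fun _ => p.1, p.2)

theorem occ_toMat {d ν μ : ℕ} (x : Form 1 d ν μ) (u : Fin ν) : Occ (toMat x) u ↔ OccF x u := by
  constructor
  · rintro ⟨i, T, h, hb⟩
    exact ⟨fun _ => i, T, h, hb⟩
  · rintro ⟨i, T, h, hb⟩
    refine ⟨i 0, T, ?_, hb⟩
    have : i = fun _ => i 0 := by
      funext a; rw [Subsingleton.elim a 0]
    show x (fun _ => i 0, T) = true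
    rw [← this]; exact h

theorem sem_toMat {d ν μ : ℕ} (x : Form 1 d ν μ) (W : Finset (Fin ν)) :
    (∀ i, ∃ T : Tm d ν, toMat x (i, T) = true ∧ TmHolds W T) ↔ Sem W 1 true x := by
  have key : ∀ j : Fin μ, (Fin.cons j (fun i : Fin 0 => i.elim0) : Fin 1 → Fin μ) = fun _ => j := by
    intro j; funext a
    have ha : a = 0 := Subsingleton.elim (α := Fin 1) a 0
    subst ha; rfl
  simp only [Sem, toMat]
  constructor
  · intro h j
    obtain ⟨T, h1, h2⟩ := h j
    exact ⟨T, by rw [key]; exact h1, h2⟩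
  · intro h j
    obtain ⟨T, h1, h2⟩ := h j
    exact ⟨T, by rw [key] at h1; exact h1, h2⟩

theorem wsat_toMat {d ν μ : ℕ} (x : Form 1 d ν μ) (k : ℕ) : WSat (toMat x) k ↔ WSatF x k := by
  unfold WSat WSatF
  constructor
  · rintro ⟨W, h1, h2, h3⟩
    exact ⟨W, fun u hu => (occ_toMat x u).1 (h1 u hu), h2, (sem_toMat x W).1 h3⟩
  · rintro ⟨W, h1, h2, h3⟩
    exact ⟨W, fun u hu => (occ_toMat x u).2 (h1 u hu), h2, (sem_toMat x W).2 h3⟩

theorem ac0RedT_of (p d d' : ℕ) (h : AC0Red p d d') : AC0RedT 1 (p : ℝ) d d' := by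
  obtain ⟨h, c, H⟩ := h
  refine ⟨h, c, fun ν μ k => ?_⟩
  obtain ⟨M, L, P, out, par, hM, hL, hP, hout, hpar, hx⟩ := H ν μ k
  refine ⟨M, L, P, fun q => mapC (fun a => (fun _ => a.1, a.2)) (out (q.1 0, q.2)),
    fun j => mapC (fun a => (fun _ => a.1, a.2)) (par j), hM, hL, ?_, ?_, ?_, ?_⟩
  · rw [Real.rpow_natCast]
    exact_mod_cast hP
  · intro j
    rw [mapC_depth, mapC_size]
    exact hout _
  · intro j hj
    rw [mapC_depth, mapC_size]
    exact hpar j hj
  · intro x
    obtain ⟨κ, hκ, h1, h2⟩ := hx (toMat x)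
    refine ⟨κ, hκ, ?_, ?_⟩
    · intro j hj
      rw [mapC_eval]
      exact h1 j hj
    · rw [← wsat_toMat, h2, ← wsat_toMat]
      have : (toMat (fun j => (mapC (fun a : Fin μ × Tm d ν => ((fun _ => a.1, a.2) :
          (Fin 1 → Fin μ) × Tm d ν)) (out (j.1 0, j.2))).eval x) : Mat d' M L)
          = fun j => (out j).eval (toMat x) := by
        funext j
        show (mapC _ (out (j.1, j.2))).eval x = _
        rw [mapC_eval]
        rfl
      rw [this]

/-- The theorem of the earlier hand-in `NoAC0Reduction`. -/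
theorem old (p d : ℕ) (hp : 1 ≤ p) (hd : 2 * p + 2 ≤ d) : ¬ AC0Red p d 1 := fun h =>
  not_ac0RedT 1 d 1 p le_rfl (by omega) (by
    have : ((p : ℕ) : ℝ) < (d : ℝ) := by exact_mod_cast (by omega : p < d)
    simpa using this) (ac0RedT_of p d 1 h)

end Pool.Agent.Lib.MP_b4f117_lc.AT
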