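import Pool.Agent.Lib.MP_b4f117_lc.AC.Defs

/-!
# AC⁰ reductions between the problems `p-WSAT(Γ_{t,d})`, `t ≥ 2`: definitions

`Tm d ν` (sets of at most `d` literals over `ν` variables), `TmHolds W T` (all literals of `T` are
true if `W` is the set of the true variables) and the circuits `Circ I` with `Circ.eval`,
`Circ.depth`, `Circ.size` are defined in `AC/Defs.lean`.
-/

set_option autoImplicit false

namespace Pool.Agent.Lib.MP_b4f117_lc.AT

open Pool.Agent.Lib.MP_b4f117_lc.AC

/-- Some literal of `T` is true if `W` is the set of the true variables. -/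
def TmSome {d ν : ℕ} (W : Finset (Fin ν)) (T : Tm d ν) : Prop :=
  ∃ l ∈ T.1, (l.1 ∈ W ↔ l.2 = true)

/-- A formula of `Γ_{r+1,d}` or of `Δ_{r+1,d}` over `ν` variables, given by its incidence matrix:
the outer `r` levels have fan-in `μ`, and `x (i, T)` tells whether the set `T` of literals belongs
to the innermost gate with the address `i`. -/
abbrev Form (r d ν μ : ℕ) : Type := (Fin r → Fin μ) × Tm d ν → Bool

/-- The truth of the formula `x` if `W` is the set of the true variables; `true`: `x` is read as a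
formula of `Γ_{r+1,d}` (a conjunction), `false`: as a formula of `Δ_{r+1,d}` (a disjunction). -/
def Sem {d ν μ : ℕ} (W : Finset (Fin ν)) : (r : ℕ) → Bool → Form r d ν μ → Prop
  | 0, true, x => ∀ T, x (fun i => i.elim0, T) = true → TmSome W T
  | 0, false, x => ∃ T, x (fun i => i.elim0, T) = true ∧ TmHolds W T
  | r + 1, true, x => ∀ j : Fin μ, Sem W r false (fun p => x (Fin.cons j p.1, p.2))
  | r + 1, false, x => ∃ j : Fin μ, Sem W r true (fun p => x (Fin.cons j p.1, p.2))

/-- The variable `u` occurs in the formula. -/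
def OccF {r d ν μ : ℕ} (x : Form r d ν μ) (u : Fin ν) : Prop :=
  ∃ (i : Fin r → Fin μ) (T : Tm d ν), x (i, T) = true ∧ ∃ b, (u, b) ∈ T.1

/-- The formula `x` of `Γ_{r+1,d}` has a satisfying assignment (of the variables which occur in it)
of weight exactly `k`. -/
def WSatF {r d ν μ : ℕ} (x : Form r d ν μ) (k : ℕ) : Prop :=
  ∃ W : Finset (Fin ν), (∀ u ∈ W, OccF x u) ∧ W.card = k ∧ Sem W r true x

/-- `AC0RedT r γ d d'`: there are constants `h`, `c` and, for every number `ν` of variables, every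
fan-in `μ` and every parameter `k`, circuits of depth at most `h` and size at most
`(2 ^ k * (ν + μ + 2)) ^ c` which reduce `p-WSAT(Γ_{r+1,d})` to `p-WSAT(Γ_{r+1,d'})`, with the new
parameter at most `c * (k + log (ν + μ + 2)) ^ γ`.

The circuits compute from the incidence matrix `x` of a formula in `Γ_{r+1,d}` the incidence matrix
of a formula in `Γ_{r+1,d'}` with fan-in `L` over `M` variables, and the new parameter `κ ≤ P`
(`par j` tells whether `κ = j`). -/
def AC0RedT (r : ℕ) (γ : ℝ) (d d' : ℕ) : Prop :=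
  ∃ h c : ℕ, ∀ ν μ k : ℕ, ∃ (M L P : ℕ)
      (out : (Fin r → Fin L) × Tm d' M → Circ ((Fin r → Fin μ) × Tm d ν))
      (par : ℕ → Circ ((Fin r → Fin μ) × Tm d ν)),
    M ≤ (2 ^ k * (ν + μ + 2)) ^ c ∧ L ≤ (2 ^ k * (ν + μ + 2)) ^ c ∧
    (P : ℝ) ≤ (c : ℝ) * ((k + Nat.log 2 (ν + μ + 2) : ℕ) : ℝ) ^ γ ∧
    (∀ j, (out j).depth ≤ h ∧ (out j).size ≤ (2 ^ k * (ν + μ + 2)) ^ c) ∧
    (∀ j ≤ P, (par j).depth ≤ h ∧ (par j).size ≤ (2 ^ k * (ν + μ + 2)) ^ c) ∧
    ∀ x : Form r d ν μ, ∃ κ ≤ P, (∀ j ≤ P, (par j).eval x = true ↔ j = κ) ∧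
      (WSatF x k ↔ WSatF (fun j => (out j).eval x : Form r d' M L) κ)

end Pool.Agent.Lib.MP_b4f117_lc.AT
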