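import Pool.Agent.Lib.MP_b4f117_lc.AT.P.swE
import Pool.Agent.Lib.MP_b4f117_lc.AT.P.orE
import Pool.Agent.Lib.MP_b4f117_lc.AT.P.litE
import Pool.Agent.Lib.MP_b4f117_lc.AT.P.fillE
import Pool.Agent.Lib.MP_b4f117_lc.AT.P.oneE
import Pool.Agent.Lib.MP_b4f117_lc.AT.P.stagesE
import Pool.Agent.Lib.MP_b4f117_lc.AT.P.embE
import Pool.Agent.Lib.MP_b4f117_lc.AT.P.uniqE
import Pool.Agent.Lib.MP_b4f117_lc.AT.P.neut
import Pool.Agent.Lib.MP_b4f117_lc.AT.P.sw2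
import Pool.Agent.Lib.MP_b4f117_lc.AT.P.nt
import Pool.Agent.Lib.MP_b4f117_lc.AT.P.hot
import Pool.Agent.Lib.MP_b4f117_lc.AT.P.top
import Pool.Agent.Lib.MP_b4f117_lc.AT.P.projT
import Pool.Agent.Lib.MP_b4f117_lc.AT.P.sem
import Pool.Agent.Lib.MP_b4f117_lc.AT.P.conv
import Pool.Agent.Lib.MP_b4f117_lc.AT.P.srcsatT
import Pool.Agent.Lib.MP_b4f117_lc.AT.P.base
import Pool.Agent.Lib.MP_b4f117_lc.AT.P.formT
import Pool.Agent.Lib.MP_b4f117_lc.AT.P.outNT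
import Pool.Agent.Lib.MP_b4f117_lc.AT.P.certE
import Pool.Agent.Lib.MP_b4f117_lc.AT.P.num1
import Pool.Agent.Lib.MP_b4f117_lc.AT.P.num
import Pool.Agent.Lib.MP_b4f117_lc.AT.P.mainT
import Pool.Agent.Lib.MP_b4f117_lc.AC.P.Tree
import Pool.Agent.Lib.MP_b4f117_lc.AC.P.Emb
import Pool.Agent.Lib.MP_b4f117_lc.AC.P.Subs
import Pool.Agent.Lib.MP_b4f117_lc.AC.P.Str

/-!
# All pieces together
-/

set_option autoImplicit false

namespace Pool.Agent.Lib.MP_b4f117_lc.AT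

open Pool.Agent.Lib.MP_b4f117_lc.AC

theorem not_ac0RedT : S_mainT :=
  p_mainT (p_stagesE (p_oneE p_swE p_orE p_fillE)) p_orE p_litE p_embE p_uniqE p_neut
    (p_top (p_nt p_sw2) p_hot p_tree) p_projT (p_srcsatT p_sem p_conv) (p_base p_embE) p_formT
    (p_outNT p_sem) p_certE (p_num p_num1) p_lvcard p_subs p_str

end Pool.Agent.Lib.MP_b4f117_lc.AT
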