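import Pool.Agent.Lib.MP_b4f117_lc.AC.Hyp
import Pool.Agent.Lib.MP_b4f117_lc.AC.Stm
import Pool.Agent.Lib.MP_b4f117_lc.AT.Defs

/-!
# Partial entries, planted inputs, the source instances

`Vx`, `up`, `Lv`, `Be`, `pt` are those of `AC/Hyp.lean`; the entries are now partial
(at most one vertex of every group).
-/

set_option autoImplicit false

namespace Pool.Agent.Lib.MP_b4f117_lc.AT

open Pool.Agent.Lib.MP_b4f117_lc.AC

/-! ## 1. Inputs indexed by partial entries -/

section Hyp

variable (G : Type) (q : ℕ)

/-- the entries: at most one vertex `(g, u)` of every group `g` -/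
abbrev En (A : Type) : Type := G → Option (Fin q × A)

variable {G q} {A : Type}

/-- all vertices of the entry `e` belong to `U` -/
def WiE (e : En G q A) (U : Finset (Vx G q A)) : Prop := ∀ g u, e g = some u → (g, u) ∈ U

/-- every input with `f x` has a certificate of at most `w` vertices -/
def CertE (w : ℕ) (f : (En G q A → Bool) → Prop) : Prop :=
  ∀ x, f x → ∃ U : Finset (Vx G q A), U.card ≤ w ∧
    ∀ x' : En G q A → Bool, (∀ e, WiE e U → x' e = x e) → f x'

/-- certificates for both values -/
def BCE (w : ℕ) (f : (En G q A → Bool) → Prop) : Prop :=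
  CertE w f ∧ CertE w (fun x => ¬ f x)

variable {B Q : ℕ}

/-- the entry continued by `β` -/
def kapE (β : Vx G q A → Fin B) (e : En G q A) : En G q (A × Fin B) :=
  fun g => (e g).map fun u => (u.1, (u.2, β (g, u)))

/-- the entry with the last coordinates removed -/
def prjE (e : En G q (A × Fin B)) : En G q A := fun g => (e g).map fun u => (u.1, u.2.1)

open Classical in
/-- The input which is `y` on the continued entries and noise elsewhere (noise `z e = 0` gives the
value `true`). -/
noncomputable def FillE [NeZero Q] (β : Vx G q A → Fin B) (z : En G q (A × Fin B) → Fin Q)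
    (y : En G q A → Bool) : En G q (A × Fin B) → Bool := fun e =>
  if e = kapE β (prjE e) then y (prjE e) else decide (z e = 0)

end Hyp

section Emb

variable {G : Type} {q B Q : ℕ} [NeZero Q]

/-- The input of level `j` which is `y` on the planted entries and noise elsewhere. -/
noncomputable def EmbE : (j : ℕ) → Be G q B j → (En G q (Lv B j) → Fin Q) →
    (En G q Unit → Bool) → (En G q (Lv B j) → Bool)
  | 0, _, _, y => y
  | j + 1, b, z, y => FillE (A := Lv B j) b.1 z (EmbE j b.2 (fun e => z (kapE b.1 e)) y)

/-- The entry with the colours `C` and the vertices `s`. -/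
def entE {A : Type} (s : G → Fin q → A) (C : G → Option (Fin q)) : En G q A :=
  fun g => (C g).map fun a => (a, s g a)

end Emb

/-! ## 2. Rows and the source function

`Rw n`: the addresses of the innermost gates: `Fin R` for the outermost level, then `n` levels
`Fin J × Fin K`. All functions are written with NOR gates. -/

section Rows

variable (R J K : ℕ)

/-- addresses of rows -/
def Rw : ℕ → Type
  | 0 => Fin R
  | n + 1 => (Rw n × Fin J) × Fin K

instance Rw.fintype : (n : ℕ) → Fintype (Rw R J K n)
  | 0 => inferInstanceAs (Fintype (Fin R))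
  | n + 1 => @instFintypeProd _ _ (@instFintypeProd _ _ (Rw.fintype n) (Fin.fintype J))
      (Fin.fintype K)

instance Rw.decEq : (n : ℕ) → DecidableEq (Rw R J K n)
  | 0 => inferInstanceAs (DecidableEq (Fin R))
  | n + 1 => @instDecidableEqProd _ _ (@instDecidableEqProd _ _ (Rw.decEq n) (instDecidableEqFin J))
      (instDecidableEqFin K)

variable {R J K}

/-- nested NORs, the innermost level first; `p o` is the value of the row `o` -/
def gN : (n : ℕ) → (Rw R J K n → Prop) → Prop
  | 0, p => ∀ o : Fin R, ¬ p o
  | n + 1, p => gN n (fun o => ¬ ∃ (j : Fin J) (κ : Fin K), p ((o, j), κ))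

/-- the source function: the value of a row is the NOR of its entries -/
def fS (n : ℕ) {E : Type} (x : Rw R J K n × E → Bool) : Prop :=
  gN n (fun o => ∀ e, x (o, e) = false)

/-- the same with additional copies `c` of the rows at the innermost level; `P o c` is the negation
of the value of the row `(o, c)` -/
def MC {C : Type} : (n : ℕ) → (Rw R J K n → C → Prop) → Prop
  | 0, P => ∀ (o : Fin R) (c : C), P o c
  | n + 1, P => gN n (fun o => ¬ ∃ (j : Fin J) (κ : Fin K) (c : C), ¬ P ((o, j), κ) c)

/-- Block restriction: the block `(o, κ)` with `κ = β o` is planted (its only entry that may be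
`true` is `z (o, κ)`, with the value `¬ y o`); in all other blocks exactly the entry `z (o, κ)` is
`true`. -/
def Hot {O K' E : Type} [DecidableEq K'] [DecidableEq E] (β : O → K') (z : O × K' → E)
    (y : O → Bool) : (O × K') × E → Bool :=
  fun p => decide (p.2 = z p.1 ∧ (p.1.2 = β p.1.1 → y p.1.1 = false))

end Rows

/-! ## 3. Certificates of coordinates, nested NORs -/

section NT

variable {X : Type}

/-- every input with `f x` has a certificate of at most `s` coordinates -/
def C1 (s : ℕ) (f : (X → Bool) → Prop) : Prop :=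
  ∀ x, f x → ∃ S : Finset X, S.card ≤ s ∧ ∀ x' : X → Bool, (∀ e ∈ S, x' e = x e) → f x'

/-- nested NORs of fan-in `N` of functions with certificates of `s` coordinates -/
def NT (s N : ℕ) : ℕ → ((X → Bool) → Prop) → Prop
  | 0, F => C1 s F
  | r + 1, F => ∃ f : Fin N → (X → Bool) → Prop, (∀ i, NT s N r (f i)) ∧ ∀ x, F x ↔ ∀ i, ¬ f i x

/-- nested NORs, the outermost level first -/
def NS {I : Type} : (r : ℕ) → ((Fin r → I) → Prop) → Prop
  | 0, P => ¬ P (fun i => i.elim0)
  | r + 1, P => ¬ ∃ j : I, NS r (fun i => P (Fin.cons j i))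

/-- The set `T` makes the innermost gate true (`false`: all literals are true) or false (`true`: all
literals are false). -/
def Rel {d ν : ℕ} (W : Finset (Fin ν)) (l : Bool) (T : Tm d ν) : Prop :=
  if l then ¬ TmSome W T else TmHolds W T

end NT

/-! ## 4. The source instances -/

section Src

/-- the components of an index: kind (`0`: main, `1`: anchor, `2`: colour), the address
`Fin R`, `Fin J`, `Fin K`, the copies of the row, the colours of an anchor, a colour, a copy of a
vertex -/
structure Dx (R J K m d q : ℕ) (A : Type) : Type where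
  knd : Fin 3
  row : Fin R
  jj : Fin J
  kk : Fin K
  cop : Fin m → A
  anc : Fin d → Fin q
  col : Fin d × Fin q
  ver : A

variable {R J K m d q : ℕ} {A : Type}

/-- an index as a tuple -/
def Dx.equiv : Dx R J K m d q A ≃
    Fin 3 × Fin R × Fin J × Fin K × (Fin m → A) × (Fin d → Fin q) × (Fin d × Fin q) × A where
  toFun t := (t.knd, t.row, t.jj, t.kk, t.cop, t.anc, t.col, t.ver)
  invFun t := ⟨t.1, t.2.1, t.2.2.1, t.2.2.2.1, t.2.2.2.2.1, t.2.2.2.2.2.1, t.2.2.2.2.2.2.1,
    t.2.2.2.2.2.2.2⟩
  left_inv _ := rfl
  right_inv _ := rfl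

/-- the row of a tuple of indices -/
def rowOf : (n : ℕ) → (Fin (n + 1) → Dx R J K m d q A) → Rw R J K n
  | 0, i => (i 0).row
  | n + 1, i => ((rowOf n (fun l => i l.castSucc), (i (Fin.last (n + 1))).jj),
      (i (Fin.last (n + 1))).kk)

/-- the entry of the row with the colours `κ` and the copies `c` and of the vertices `(g, a g, v g)` -/
def mnE (κ : Fin m → Fin q) (c : Fin m → A) (a : Fin d → Fin q) (v : Fin d → A) :
    En (Fin m ⊕ Fin d) q A :=
  Sum.elim (fun i => some (κ i, c i)) (fun g => some (a g, v g))

/-- the anchor entry of the vertices `(g, a g, v g)` -/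
def anE (m : ℕ) (a : Fin d → Fin q) (v : Fin d → A) : En (Fin m ⊕ Fin d) q A :=
  Sum.elim (fun _ => none) (fun g => some (a g, v g))

/-- the set of the literals of the vertices `(g, a g, v g)`, with the sign `b` -/
def litS {ν : ℕ} (φ : Fin d × (Fin q × A) ≃ Fin ν) (b : Bool) (a : Fin d → Fin q) (v : Fin d → A) :
    Finset (Fin ν × Bool) := Finset.univ.image fun g => (φ (g, (a g, v g)), b)

open Classical in
/-- The source instance, a formula in `Γ_{n+2,d}`; `ι` gives the colours of a row. -/
noncomputable def srcT {ν μ : ℕ} (n : ℕ) (φ : Fin d × (Fin q × A) ≃ Fin ν)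
    (ψ : Dx R J K m d q A ≃ Fin μ) (ι : Rw R J K n → Fin m → Fin q)
    (x : En (Fin m ⊕ Fin d) q A → Bool) : Form (n + 1) d ν μ := fun p =>
  let i : Fin (n + 1) → Dx R J K m d q A := fun l => ψ.symm (p.1 l)
  let b : Bool := decide (n % 2 = 0)
  if (i 0).knd = 0 then
    decide (∃ a v, p.2.1 = litS φ b a v ∧
      x (mnE (ι (rowOf n i)) (i (Fin.last n)).cop a v) = true)
  else if (i 0).knd = 1 then
    decide (∃ v, p.2.1 = litS φ b (i 0).anc v ∧ x (anE m (i 0).anc v) = b)
  else if b = true then
    decide (∃ v, p.2.1 = {(φ ((i 0).col.1, ((i 0).col.2, v)), true)})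
  else
    decide (p.2.1 = {(φ ((i 0).col.1, ((i 0).col.2, (i (Fin.last n)).ver)), true)})

/-- the level `0` input with the values `x'` of the main entries, `true` for the anchors, `false`
for all other entries -/
noncomputable def plE {n : ℕ} (ι : Rw R J K n → Fin m → Fin q)
    (x' : Rw R J K n × (Fin d → Fin q) → Bool) : En (Fin m ⊕ Fin d) q Unit → Bool := by
  classical
  exact fun e =>
    if h : ∃ p : Rw R J K n × (Fin d → Fin q), e = mnE (ι p.1) (fun _ => ()) p.2 (fun _ => ()) then
      x' h.choose
    else decide (∃ a, e = anE m a (fun _ => ()))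

/-- the transversal `s` is a solution -/
def SolT {n : ℕ} (ι : Rw R J K n → Fin m → Fin q) (x : En (Fin m ⊕ Fin d) q A → Bool)
    (s : Fin d → Fin q → A) : Prop :=
  (∀ a : Fin d → Fin q, x (anE m a (fun g => s g (a g))) = true) ∧
  MC n (fun (o : Rw R J K n) (c : Fin m → A) =>
    ∃ a : Fin d → Fin q, x (mnE (ι o) c a (fun g => s g (a g))) = true)

end Src

end Pool.Agent.Lib.MP_b4f117_lc.AT
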