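import Pool.Agent.Lib.MP_b4f117_lc.AT.Hyp

/-!
# AC⁰ reductions between the problems `p-WSAT(Γ_{t,d})`, `t ≥ 2`: statements of the pieces (helper84)

Every statement `S_x` is to be proved in the file `AT/P/x.lean` as `p_x` (namespace
`Pool.Agent.Lib.MP_b4f117_lc.AT`), with the statements it uses as hypotheses in the given order.
Theorem: for `t ≥ 2`, `d ≥ 2` and a real `γ` with `γ d' < d` there is no AC⁰ reduction from
`p-WSAT(Γ_{t,d})` to `p-WSAT(Γ_{t,d'})` with new parameter `O((k + log n) ^ γ)`.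
-/

set_option autoImplicit false

open Finset

namespace Pool.Agent.Lib.MP_b4f117_lc.AT

open Pool.Agent.Lib.MP_b4f117_lc.AC

/-! ## A. The first switching lemma (partial entries): adaptations of the files `AC/P/*.lean` -/

/-- the constant of the switching lemma; `m = card G` -/
def CstE (m w Q : ℕ) : ℕ :=
  2 * (w + 2) * (2 ^ w * 2 ^ ((2 * w + 1) ^ m)) ^ (w + 1) * Q ^ ((2 * w + 1) ^ m)

/-- [EWT swE] The switching lemma for partial entries. Copy `AC/P/Sw.lean` (docstring of `S_sw` in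
`AC/Stm.lean`) with `En, WiE, CertE, kapE, prjE, FillE` in the place of `Ent, Wi, Cert, kap, prj, Fill`.
Differences: an entry is `G → Option (Fin q × A)`, so within a set of at most `2 w` vertices there are at
most `(2 w + 1) ^ card G` entries; the empty entry lies within every set, also within `∅`: the
initial state is `(∅, η)` with `η e = false` for all `e` except perhaps the empty entry, two
possibilities (hence the factor `2`). `WiE e' (em U) → e' = kapE β (prjE e')` and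
`WiE (kapE β e) (em U) ↔ WiE e U` hold as before. -/
def S_swE : Prop := ∀ {G : Type} [Fintype G] [DecidableEq G] {q B Q : ℕ} [NeZero Q] {A : Type}
  [Fintype A] [DecidableEq A] (w : ℕ) (f : (En G q (A × Fin B) → Bool) → Prop), 2 ≤ Q →
  CertE w f →
  Nat.card {p : (Vx G q A → Fin B) × (En G q (A × Fin B) → Fin Q) //
      ¬ CertE w (fun y => ¬ f (FillE p.1 p.2 y))} * B ^ (w + 1) ≤
    CstE (Fintype.card G) w Q *
      Nat.card ((Vx G q A → Fin B) × (En G q (A × Fin B) → Fin Q))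

/-- [EWT orE] as `AC/P/Or.lean`. -/
def S_orE : Prop := ∀ {G : Type} {q : ℕ} {A : Type} (w : ℕ),
  (∀ (S : Type) (f : S → (En G q A → Bool) → Prop), (∀ s, CertE w (f s)) →
    CertE w (fun x => ∃ s, f s x)) ∧
  (∀ P : Prop, CertE w (fun _ : En G q A → Bool => P)) ∧
  (∀ (f : (En G q A → Bool) → Prop) (w' : ℕ), w ≤ w' → CertE w f → CertE w' f)

/-- [EWT litE] as `AC/P/Lit.lean`: `x e = b` has certificates of `card G` vertices
(`U = {(g, u) | e g = some u}`). -/
def S_litE : Prop := ∀ {G : Type} [Fintype G] [DecidableEq G] {q : ℕ} {A : Type} [DecidableEq A]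
  (e : En G q A) (b : Bool), BCE (Fintype.card G) (fun x : En G q A → Bool => x e = b)

/-- [EWT fillE] as `AC/P/Fill.lean`. -/
def S_fillE : Prop := ∀ {G : Type} [Fintype G] [DecidableEq G] {q B Q : ℕ} [NeZero Q] {A : Type}
  [Fintype A] [DecidableEq A] (w : ℕ) (f : (En G q (A × Fin B) → Bool) → Prop)
  (β : Vx G q A → Fin B) (z : En G q (A × Fin B) → Fin Q),
  CertE w f → CertE w (fun y => f (FillE β z y))

/-- all gates of level at most `d` have certificates -/
def LayE {ι G A : Type} {q : ℕ} (w d : ℕ) (δ : ι → ℕ)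
    (ev : ι → (En G q A → Bool) → Prop) : Prop :=
  ∀ i, δ i ≤ d → BCE w (ev i)

/-- [EWT oneE] (uses swE, orE, fillE) as `AC/P/One.lean`. -/
def S_oneE : Prop := ∀ {G : Type} [Fintype G] [DecidableEq G] {q B Q : ℕ} [NeZero Q] {A : Type}
  [Fintype A] [DecidableEq A] (w d : ℕ) (ι : Type) [Fintype ι] (δ : ι → ℕ)
  (ev : ι → (En G q (A × Fin B) → Bool) → Prop), 2 ≤ Q → Str δ ev → LayE w d δ ev →
  Nat.card {p : (Vx G q A → Fin B) × (En G q (A × Fin B) → Fin Q) //
      ¬ LayE w (d + 1) δ (fun i y => ev i (FillE p.1 p.2 y))} * B ^ (w + 1) ≤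
    2 * Fintype.card ι * CstE (Fintype.card G) w Q *
      Nat.card ((Vx G q A → Fin B) × (En G q (A × Fin B) → Fin Q))

/-- [EWT stagesE] (uses oneE) as `AC/P/Stages.lean`. -/
def S_stagesE : Prop := ∀ {G : Type} [Fintype G] [DecidableEq G] {q B Q : ℕ} [NeZero Q]
  (w j d : ℕ) (ι : Type) [Fintype ι] (δ : ι → ℕ)
  (ev : ι → (En G q (Lv B j) → Bool) → Prop), 2 ≤ Q → Str δ ev → LayE w d δ ev →
  Nat.card {p : Be G q B j × (En G q (Lv B j) → Fin Q) //
      ¬ LayE w (d + j) δ (fun i y => ev i (EmbE j p.1 p.2 y))} * B ^ (w + 1) ≤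
    j * (2 * Fintype.card ι * CstE (Fintype.card G) w Q) *
      Nat.card (Be G q B j × (En G q (Lv B j) → Fin Q))

/-- [EWT embE] Explicit form of `EmbE`, as `AC/P/Emb.lean` (induction on `j`). -/
def S_embE : Prop := ∀ {G : Type} [Fintype G] [DecidableEq G] {q B Q : ℕ} [NeZero Q]
  (j : ℕ) (b : Be G q B j) (z : En G q (Lv B j) → Fin Q) (y : En G q Unit → Bool),
  (∀ C : G → Option (Fin q), EmbE j b z y (entE (pt j b) C) =
    y (fun g => (C g).map fun a => (a, ()))) ∧
  (∀ e : En G q (Lv B j), e ≠ entE (pt j b) (fun g => (e g).map Prod.fst) →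
    EmbE j b z y e = decide (z e = 0))

/-- [EWT uniqE] For at most a quarter of the noises `z` there is a transversal `s ≠ s₀` all of whose
anchors have noise `0` or are planted. Adapt `AC/P/Uniq.lean`.

Proof: for `s ≠ s₀` let `D = {(g, c) | s g c ≠ s₀ g c}` and `t(s)` the number of the
`a : Fin d → Fin q` with `(g, a g) ∈ D` for some `g`. The entries `anE m a (s ∘ a)` are
different for different `a`, so the number of the `z` which vanish at all `t(s)` of them is
`card Z / Q ^ t(s)`. For some `g` the number of the `c` with `(g, c) ∈ D` is at least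
`D.card / d`, so `d t(s) ≥ D.card * q ^ (d - 1) ≥ D.card * q` (`d ≥ 2`) and
`Q ^ t(s) = (2 ^ (H + 1)) ^ (d t(s)) ≥ 2 ^ ((H + 1) q D.card)`. There are at most `N ^ D.card`
functions `s` with the set `D` (`N = 2 ^ (q H) = card A`), so the number of the bad `z` is at most
`card Z * ∑_{D ≠ ∅} (2 ^ (- q)) ^ D.card = card Z * ((1 + 2 ^ (- q)) ^ (d q) - 1)` and
`(1 + x) ^ k - 1 ≤ 2 k x` for `k x ≤ 1`, here `2 d q / 2 ^ q ≤ 1 / 4`. -/
def S_uniqE : Prop := ∀ (m d q H : ℕ) {A : Type} [Fintype A] [DecidableEq A]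
  [NeZero ((2 ^ (H + 1)) ^ d)], 2 ≤ d → Fintype.card A = 2 ^ (q * H) → 8 * d * q ≤ 2 ^ q →
  ∀ s₀ : Fin d → Fin q → A,
  4 * Nat.card {z : En (Fin m ⊕ Fin d) q A → Fin ((2 ^ (H + 1)) ^ d) //
      ∃ s : Fin d → Fin q → A, s ≠ s₀ ∧ ∀ a : Fin d → Fin q,
        anE m a (fun g => s g (a g)) ≠ anE m a (fun g => s₀ g (a g)) →
        z (anE m a (fun g => s g (a g))) = 0} ≤
    Nat.card (En (Fin m ⊕ Fin d) q A → Fin ((2 ^ (H + 1)) ^ d))

/-- [EWT neut] For at most a quarter of the noises `z` there is a row `(κ, c)` without an entry of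
noise `0` on the transversal `s₀`.

Proof: there are `(q card A) ^ m` rows; for a fixed row the entries `mnE κ c a _`, `a : Fin d → Fin q`,
are different, so the number of the `z` that are nonzero at all of them is
`(Q - 1) ^ (q ^ d) * Q ^ (card En - q ^ d)`. -/
def S_neut : Prop := ∀ (m d q Q : ℕ) {A : Type} [Fintype A] [DecidableEq A] [NeZero Q],
  4 * (q * Fintype.card A) ^ m * (Q - 1) ^ (q ^ d) ≤ Q ^ (q ^ d) →
  ∀ s₀ : Fin d → Fin q → A,
  4 * Nat.card {z : En (Fin m ⊕ Fin d) q A → Fin Q //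
      ∃ (κ : Fin m → Fin q) (c : Fin m → A), ∀ a : Fin d → Fin q,
        z (mnE κ c a (fun g => s₀ g (a g))) ≠ 0} ≤
    Nat.card (En (Fin m ⊕ Fin d) q A → Fin Q)

/-! ## B. The second switching lemma (blocks with one-hot noise) and the depth hierarchy -/

/-- [EWT sw2] Switching lemma for the block restrictions `Hot β z` (Razborov's method, the structure
of the proof is as in `AC/P/Sw.lean`). Let `D = 4 s card E`, `k = card K ≥ 2 D`.

Terms: `t = (T, α)`, `T.card ≤ s`, valid if `f x` for all `x` that agree with `α` on `T` (`x` satisfies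
`t`); `rank` injective; if `f x` let `first x` be the valid term of least rank satisfied by `x`.
States: `τ : O → Option (K × (E × Bool))`. For a state and `z' : O × K → E` let `ov τ z'` be the
input whose block `(o, κ)` is: if `τ o = some (κ, e₀, b)`: only the entry `e₀` can be true, with the
value `¬ b`; otherwise exactly the entry `z' (o, κ)` is true. `R a z' τ` (`a` new blocks in total):
`R 0 z' τ = {τ}`; for `a ≥ 1`: `∅` if not `f (ov τ z')`, otherwise the union, over all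
`1 ≤ i ≤ a` and all sets `S₁` of `i` blocks `(o, κ)` with `τ o = none` that are touched by the set `T` of
`first (ov τ z')` and have different `o`, and all `η : S₁ → E × Bool`, of the `R (a - i) z' τ'`,
`τ' = τ` with `τ' o = some (κ, η)` for `(o, κ) ∈ S₁`. As `T` touches at most `s` blocks there are at most
`s ^ i (2 card E) ^ i = (D / 2) ^ i` such `τ'`, so `card (R a z' τ) ≤ D ^ a` by strong induction
(`∑_{i ≥ 1} 2 ^ (- i) ≤ 1`).
Claim. Let `(β, z)`, `y` be such that `¬ f (Hot β z y)` and for every `U : Finset O` with `U.card ≤ s'`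
there is `y' = y` on `U` with `f (Hot β z y')` (such `y` exists if `(β, z)` is bad). For `U : Finset O` let
`τ_U o = some (β o, z (o, β o), y o)` for `o ∈ U`, `none` otherwise. For every `U` with
`U.card ≤ s'` there are `U' ⊇ U` with `U'.card > s'` and `θ : O → E` such that for all `z''` that
agree with `z` except at the blocks `(o, β o)`, `o ∈ U' \ U`, where `z'' (o, β o) = θ o`:
`τ_{U'} ∈ R (U'.card - U.card) z'' τ_U`. Proof by induction on `s' + 1 - U.card`. Let `Comp` be the set of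
the `x` whose blocks are: `(o, κ)`, `κ ≠ β o`: exactly `z (o, κ)` is true; `(o, β o)`, `o ∈ U`: as in
`Hot β z y`; `(o, β o)`, `o ∉ U`: exactly one entry is true, or none. Let `t = (T, α)` be the valid term of
least rank satisfied by some `x ∈ Comp` (it exists: `Hot β z y' ∈ Comp`), `N` the set of the `o ∉ U`
with `(o, β o)` touched by `T`. `N ≠ ∅`, otherwise `Hot β z y` agrees with `x` on `T`, so
`f (Hot β z y)`. For `o ∈ N` let `θ o` be the true entry of the block `(o, β o)` of `x`, or, if there is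
none, an entry `e` with `((o, β o), e) ∉ T` (`T.card ≤ s < card E`). If `z''` is `z` except at the
`(o, β o)`, `o ∈ U' \ U`, and `θ` on `N` then `ov τ_U z'' ∈ Comp` and it agrees with `x` on `T`; so
`first (ov τ_U z'') = t` and `τ_{U ∪ N}` is a next state, with `i = N.card`. If `(U ∪ N).card ≤ s'`
continue with the induction hypothesis for `U ∪ N`.
Counting. For a bad `(β, z)` fix `y` and apply the claim to `U = ∅`; `z'` is `z` with `θ o` at
`(o, β o)`, `o ∈ U'`; for all `β'` that agree with `β` outside `U'` (`k ^ U'.card` of them) the map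
`(β, z, β') ↦ (β', z', τ_{U'})` is injective, and `τ_{U'} ∈ R U'.card z' (fun _ => none)`. So the number of the
bad `(β, z)` with `U'.card = a` times `k ^ a` is at most `D ^ a` times the number of all pairs, and
`∑_{a > s'} (D / k) ^ a ≤ 2 ^ (- s')`. -/
def S_sw2 : Prop := ∀ {O K E : Type} [Fintype O] [DecidableEq O] [Fintype K] [DecidableEq K]
  [Fintype E] [DecidableEq E] (s s' : ℕ) (f : ((O × K) × E → Bool) → Prop),
  1 ≤ s → s < Fintype.card E → 8 * s * Fintype.card E ≤ Fintype.card K → C1 s f →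
  Nat.card {p : (O → K) × (O × K → E) // ¬ C1 s' (fun y => ¬ f (Hot p.1 p.2 y))} * 2 ^ s' ≤
    Nat.card ((O → K) × (O × K → E))

/-- [EWT nt] (uses sw2) One level of a nested NOR collapses.

Proof: induction on `n`. `n = 0`: `F x ↔ ∀ i, ¬ f i x` with `C1 s (f i)`; `¬ F` is the disjunction of the
`f i`, so `C1 s (fun x => ¬ F x)`; apply `sw2` to it and remove `¬ ¬`. `n + 1`: if
`NT s' N (n + 1)` of the restriction of `F` fails then `NT s' N n` of the restriction of some `f i` fails. -/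
def S_nt : Prop := ∀ {O K E : Type} [Fintype O] [DecidableEq O] [Fintype K] [DecidableEq K]
  [Fintype E] [DecidableEq E] (s s' N n : ℕ) (F : ((O × K) × E → Bool) → Prop),
  1 ≤ s → s < Fintype.card E → 8 * s * Fintype.card E ≤ Fintype.card K → NT s N (n + 1) F →
  Nat.card {p : (O → K) × (O × K → E) // ¬ NT s' N n (fun y => F (Hot p.1 p.2 y))} * 2 ^ s' ≤
    N ^ n * Nat.card ((O → K) × (O × K → E))

/-- [EWT hot] The source function under a block restriction.

Proof: the block `((o, j), κ)` of `Hot β z y` has only false entries iff `κ = β (o, j)` and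
`y (o, j) = true`; so the inner NOR over `(j, κ)` is the NOR over `j` of `y (o, j)`. -/
def S_hot : Prop := ∀ {R J K n : ℕ} {E : Type} [DecidableEq E]
  (β : Rw R J K n × Fin J → Fin K) (z : (Rw R J K n × Fin J) × Fin K → E)
  (y : Rw R J K n × Fin J → Bool),
  fS (n + 1) (Hot β z y : Rw R J K (n + 1) × E → Bool) ↔ fS n y

/-- [EWT top] (uses nt, hot, `AC.S_tree`) The depth hierarchy: hard inputs for nested NORs.

Proof: induction on `n`, for all `s`, `E`. `n = 0`: `D = (Fin R → E)`, `hd δ (o, e) = decide (δ o = e)`;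
`F x ↔ ∀ i, ¬ f i x` with `C1 s (f i)`, so the zeros of `F` have certificates of `s` coordinates; the tree
lemma (`ok = True`) bounds the number by `s ^ R ≤ (card E / 2) ^ R`. `n + 1`:
`D = ((Rw n × Fin J → Fin K) × ((Rw n × Fin J) × Fin K → E)) × D'` with `D'`, `hd'` from the induction hypothesis
for `s'`, `Fin J`, `hd ((β, z), δ) = Hot β z (hd' δ)`. By `nt` for `O = Rw n × Fin J` the pairs `(β, z)` for
which the restriction of `F` is not `NT s' N (n + 1)` are at most `N ^ (n + 1) / 2 ^ s'` of all; for the others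
the induction hypothesis applies (`F (Hot β z y) → fS (n + 1) (Hot β z y) → fS n y`), and
`N ^ n ≤ N ^ (n + 1)`. (`s < card E` because `1 ≤ s`, `2 s ≤ card E`.) -/
def S_top : Prop := ∀ (R J K N s' n s : ℕ) (E : Type) [Fintype E] [DecidableEq E], 1 ≤ N → 1 ≤ s →
  1 ≤ s' → 2 * s ≤ Fintype.card E → 8 * s * Fintype.card E ≤ K → 2 * s' ≤ J → 8 * s' * J ≤ K →
  ∃ (D : Type) (_ : Fintype D) (_ : Nonempty D) (hd : D → Rw R J K n × E → Bool),
    (∀ δ, fS n (hd δ)) ∧
    ∀ F : (Rw R J K n × E → Bool) → Prop, NT s N (n + 1) F → (∀ x, F x → fS n x) →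
      (Nat.card {δ : D // F (hd δ)} : ℝ) ≤
        ((n : ℝ) * (N : ℝ) ^ n / 2 ^ s' + (1 / 2) ^ R) * (Nat.card D : ℝ)

/-! ## C. The source instances -/

/-- [EWT projT] Every entry of the matrix is constant or an entry of `x` or the negation of one.
Proof: `litS φ b` is injective: `(φ (g, (a g, v g)), b)` is the only element coming from the group `g`. -/
def S_projT : Prop := ∀ {R J K m d q ν μ : ℕ} {A : Type} (n : ℕ)
  (φ : Fin d × (Fin q × A) ≃ Fin ν) (ψ : Dx R J K m d q A ≃ Fin μ)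
  (ι : Rw R J K n → Fin m → Fin q) (p : (Fin (n + 1) → Fin μ) × Tm d ν),
  (∃ b, ∀ x, srcT n φ ψ ι x p = b) ∨ (∃ e b, ∀ x, (srcT n φ ψ ι x p = true ↔ x e = b))

/-- [EWT sem] The truth value as a nested NOR. Proof: induction on `r` for all `c`. `r = 0`: by the
definitions. `r + 1`: `xor c ((r + 1) odd) = xor (!c) (r odd)`; for `c = true`:
`∀ j, Sem W r false _ ↔ ∀ j, ¬ NS r _ ↔ NS (r + 1) _`; for `c = false`: `∃ j, NS r _ ↔ ¬ NS (r + 1) _`. -/
def S_sem : Prop := ∀ {d ν μ : ℕ} (W : Finset (Fin ν)) (r : ℕ) (c : Bool) (x : Form r d ν μ),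
  Sem W r c x ↔
    (NS r (fun i => ∃ T, x (i, T) = true ∧ Rel W (xor c (decide (r % 2 = 1))) T) ↔ c = true)

/-- [EWT conv] Three computations with `NS`. (1) constant functions: induction on `r`. (2) a function of
the last index: `r = 0` directly, step as in (1). (3) the rows: first show that `NS` can be computed
starting with the innermost index: `NS (r + 1) P ↔ NS' r (fun i => ¬ ∃ j, ¬ P (Fin.snoc i j))` where
`NS' r p` is the nested NOR of the values `p` (`NS' 0 p = p`, `NS' (r + 1) p = NS' r (¬ ∃ j, p (snoc i j))`;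
`Fin.cons_snoc_eq_snoc_cons`), then compare with `gN` and `MC` (all components of `Dx` are nonempty, so the
quantifiers over `Dx` are quantifiers over the components which are used:
`rowOf (n + 1) (Fin.snoc i j) = ((rowOf n i, j.jj), j.kk)`). -/
def S_conv : Prop :=
  (∀ (I : Type) [Nonempty I] (r : ℕ) (P : Prop), NS r (fun _ : Fin r → I => P) ↔
    (P ↔ r % 2 = 1)) ∧
  (∀ (I : Type) [Nonempty I] (r : ℕ) (P : I → Prop),
    NS (r + 1) (fun i : Fin (r + 1) → I => P (i (Fin.last r))) ↔ ((∀ j, P j) ↔ r % 2 = 0)) ∧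
  (∀ (R J K m d q : ℕ) (A : Type) [Nonempty A] (n : ℕ) (P : Rw R J K n → (Fin m → A) → Prop),
    0 < R → 0 < J → 0 < K → 0 < q → 0 < d →
    (NS (n + 1) (fun i : Fin (n + 1) → Dx R J K m d q A => P (rowOf n i) (i (Fin.last n)).cop) ↔
      MC n P))

/-- [EWT srcsatT] (uses sem, conv) The solutions of weight `d q` are the transversals.

Proof. Write `b = decide (n % 2 = 0)`. By `sem` (`c = true`, `r = n + 1`) `Sem W (n + 1) true _` is
`NS (n + 1) P` with `P i ↔ ∃ T, srcT (i, T) = true ∧ Rel W (!b) T`; `NS (n + 1) P ↔ ∀ j₀, ¬ NS n (P (cons j₀ ·))`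
(indices through `ψ`). For `T = litS φ b a v`: `Rel W (!b) T ↔ ∀ g, φ (g, (a g, v g)) ∈ W` in both cases.
Kind `2`, colour `(g, c)`: if `n` is even `P` is constant, `∃ v, φ (g, (c, v)) ∈ W`, and `¬ NS n P ↔ P` (conv
(1)); if `n = r + 1` is odd `P i ↔ φ (g, (c, v)) ∉ W`, `v` the copy of the last index, and
`¬ NS n P ↔ ∃ v, φ (g, (c, v)) ∈ W` (conv (2)). Kind `1`, colours `a`: `P` is constant; `n` even:
`¬ NS n P ↔ P ↔ ∃ v, x (anE m a v) = true ∧ ∀ g, φ (g, (a g, v g)) ∈ W`; `n` odd: `¬ NS n P ↔ ¬ P`, no `v` with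
`x (anE m a v) = false` and all its vertices in `W`. Kind `0`: `P i ↔ ∃ a v, x (mnE _ _ a v) = true` and all vertices in
`W`.
(⇒) For every colour there is `v` with `φ (g, (c, v)) ∈ W`; choose `s g c = v`; the `d q` vertices
`φ (g, (c, s g c))` are different, so `W` consists of them; the anchors and (conv (3); the kind is not used
by `rowOf` and `cop`) the main part give `SolT`. (⇐) `W = {φ (g, (c, s g c))}`; every element occurs
(index of kind `2`, for odd `n` with the copy `s g c` in the last index, `n ≥ 1`). The sets `litS φ b a v` and the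
singletons have at most `d` elements (`1 ≤ d`). -/
def S_srcsatT : Prop := ∀ {R J K m d q ν μ : ℕ} {A : Type} [Fintype A] [DecidableEq A] [Nonempty A]
  (n : ℕ) (φ : Fin d × (Fin q × A) ≃ Fin ν) (ψ : Dx R J K m d q A ≃ Fin μ)
  (ι : Rw R J K n → Fin m → Fin q) (x : En (Fin m ⊕ Fin d) q A → Bool),
  0 < R → 0 < J → 0 < K → 0 < q → 0 < d →
  (WSatF (srcT n φ ψ ι x) (d * q) ↔ ∃ s, SolT ι x s)

/-- [EWT base] (uses embE) The planted source instances.

Proof. `X = EmbE H b z (plE ι x')`, `s₀ g = pt H b (inr g)`. An entry `anE m a (s ∘ a)` is planted iff it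
equals `anE m a (s₀ ∘ a)`, and then `X = true` there; otherwise `X` is `decide (z _ = 0)`. If `SolT ι X s` and
`s ≠ s₀` then all anchors of `s` that are not planted have noise `0`: excluded. So only `s = s₀` is possible, its
anchors are true. Main part: `P o c ↔ ∃ a, X (mnE (ι o) c a (s₀ ∘ a)) = true`. If
`c i ≠ pt H b (inl i) (ι o i)` for some `i` the entries are not planted and `P o c` holds by the assumption
on `z`; if `c i = pt H b (inl i) (ι o i)` for all `i` then `P o c ↔ ∃ a, x' (o, a) = true` (`plE` at a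
main entry, `ι` injective; `0 < m` is used for the anchors: `anE` is not of the form `mnE`). So `MC n P ↔ gN n (fun o => ¬ ∃ a, x' (o, a) = true)` (cases `n = 0`, `n + 1`),
which is `fS n x'`. -/
def S_base : Prop := ∀ {R J K m d q B H Q : ℕ} [NeZero Q] (n : ℕ)
  (ι : Rw R J K n → Fin m → Fin q) (b : Be (Fin m ⊕ Fin d) q B H)
  (z : En (Fin m ⊕ Fin d) q (Lv B H) → Fin Q), 0 < m → Function.Injective ι →
  (¬ ∃ s : Fin d → Fin q → Lv B H, s ≠ (fun g => pt H b (Sum.inr g)) ∧ ∀ a : Fin d → Fin q,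
    anE m a (fun g => s g (a g)) ≠ anE m a (fun g => pt H b (Sum.inr g) (a g)) →
    z (anE m a (fun g => s g (a g))) = 0) →
  (¬ ∃ (κ : Fin m → Fin q) (c : Fin m → Lv B H), ∀ a : Fin d → Fin q,
    z (mnE κ c a (fun g => pt H b (Sum.inr g) (a g))) ≠ 0) →
  ∀ x' : Rw R J K n × (Fin d → Fin q) → Bool,
    ((∃ s, SolT ι (EmbE H b z (plE ι x')) s) ↔ fS n x')

/-! ## D. The target instances -/

/-- [EWT formT] For fixed `W` the inner gates of the output are disjunctions of few circuits.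
Adapt `AC/P/Form.lean`.

Proof: a slot is `none`, a vertex `u < M`, or an interval `(lo, hi)`, `lo, hi ≤ M`
(`1 + M + (M + 1) ^ 2` slots). For `i` and `σ : Fin d' → slots` let `gate i σ` be the disjunction of the
`out (i, T)` over the `T` that match `σ`: there is a choice, for every `k`, of nothing (slot
`none`), of the literal `(u, !l)` (slot `u`), or of a literal `(u, l)` with `lo ≤ u < hi` (slot `(lo, hi)`),
such that `T` is the set of the chosen literals. `fam`: `par κ` (`κ ≤ P`); for `u < M` the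
disjunction of all `out (i, T)` with `T` containing `(u, true)` or `(u, false)`; all `gate i σ`. There are at
most `(2 M + 1) ^ d'` sets `T` (every `T` is the set of the values of a function from `Fin d'` to
`Option (Fin M × Bool)`). For given `W`, `i`: the `gate i σ` with all `σ k` in: `none`, the `u ∈ W`, the
`(lo, nx lo)` for `lo ∈ {0} ∪ {u + 1 | u ∈ W}`, `nx lo` the least element of `W` that is `≥ lo`, or `M`;
these are at most `1 + W.card + (W.card + 1) ≤ 2 P + 2` slots. `Rel W l T` iff for all `(u, b) ∈ T`: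
`u ∈ W ↔ b = !l`. If `u ∉ W` then `lo ≤ u < nx lo` for the largest `lo ≤ u`; conversely
`lo ≤ u < nx lo` implies `u ∉ W`. -/
def S_formT : Prop := ∀ {I : Type} (r d' M L P h s : ℕ) (l : Bool)
  (out : (Fin r → Fin L) × Tm d' M → Circ I) (par : ℕ → Circ I),
  (∀ j, (out j).depth ≤ h ∧ (out j).size ≤ s) → (∀ j ≤ P, (par j).depth ≤ h ∧ (par j).size ≤ s) →
  1 ≤ s →
  ∃ fam : List (Circ I),
    fam.length ≤ (P + 1) + M + L ^ r * (1 + M + (M + 1) ^ 2) ^ d' ∧
    (∀ c ∈ fam, c.depth ≤ h + 1 ∧ c.size ≤ 1 + (L ^ r * (2 * M + 1) ^ d' + 1) * s) ∧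
    (∀ j ≤ P, par j ∈ fam) ∧
    (∀ u : Fin M, ∃ c ∈ fam, ∀ x : I → Bool,
      (c.eval x = true ↔ OccF (fun j => (out j).eval x : Form r d' M L) u)) ∧
    ∀ W : Finset (Fin M), W.card ≤ P → ∀ i : Fin r → Fin L, ∃ S : List (Circ I),
      S.length ≤ (2 * P + 2) ^ d' ∧ (∀ c ∈ S, c ∈ fam) ∧
      ∀ x : I → Bool, (∃ T : Tm d' M, (out (i, T)).eval x = true ∧ Rel W l T) ↔
        ∃ c ∈ S, c.eval x = true

/-- [EWT outNT] (uses sem) The output conditions are nested NORs.

Proof: let `s₀ = (2 P + 2) ^ d' * s₁`. By `sem` the last condition is `NS (n + 1) P` with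
`P i ↔ ∃ c ∈ S i, c.eval (Φ x) = true`; its innermost values `¬ P i` are conjunctions of at most
`(2 P + 2) ^ d'` functions with certificates of `s₁` coordinates, so they are `C1 s₀`. By induction on `r`
(`L ≤ N`; missing children are the constant `False`, which is `NT s₀ N r` for all `r`, as is `True`)
`NS r P` is `NT s₀ N r`. The two other conditions: a function `g` such that `g` and `¬ g` are `C1 s₀` is
`NT s₀ N r` for every `r` (`g ↔ NOR (¬ g)`, padded by `False`); `F` is the NOR of the `L` functions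
`NS n (P (cons j ·))`, of `¬ par κ` and of the `¬ OccF u`, `u ∈ W` (at most `P`). -/
def S_outNT : Prop := ∀ {I X : Type} (n d' M L P N s₁ : ℕ)
  (out : (Fin (n + 1) → Fin L) × Tm d' M → Circ I) (par : ℕ → Circ I) (fam : List (Circ I))
  (Φ : (X → Bool) → I → Bool),
  (∀ c ∈ fam, C1 s₁ (fun x : X → Bool => c.eval (Φ x) = true) ∧
    C1 s₁ (fun x : X → Bool => ¬ c.eval (Φ x) = true)) →
  (∀ j ≤ P, par j ∈ fam) →
  (∀ u : Fin M, ∃ c ∈ fam, ∀ x : I → Bool,
    (c.eval x = true ↔ OccF (fun j => (out j).eval x : Form (n + 1) d' M L) u)) →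
  (∀ W : Finset (Fin M), W.card ≤ P → ∀ i : Fin (n + 1) → Fin L, ∃ S : List (Circ I),
    S.length ≤ (2 * P + 2) ^ d' ∧ (∀ c ∈ S, c ∈ fam) ∧
    ∀ x : I → Bool, (∃ T : Tm d' M, (out (i, T)).eval x = true ∧
      Rel W (xor true (decide ((n + 1) % 2 = 1))) T) ↔ ∃ c ∈ S, c.eval x = true) →
  L + P + 1 ≤ N →
  ∀ κ ≤ P, ∀ W : Finset (Fin M), W.card = κ →
    NT ((2 * P + 2) ^ d' * s₁) N (n + 1) (fun x : X → Bool => (par κ).eval (Φ x) = true ∧
      (∀ u ∈ W, OccF (fun j => (out j).eval (Φ x) : Form (n + 1) d' M L) u) ∧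
      Sem W (n + 1) true (fun j => (out j).eval (Φ x) : Form (n + 1) d' M L))

/-- [EWT certE] From vertices to coordinates.

Proof: let `U` be a certificate of `f` at `plE ι x'`, `S` the set of the `p` with
`WiE (mnE (ι p.1) _ p.2 _) U`; `p` is determined by the choice of one element of `U` for every group (`ι` is
injective), so `S.card ≤ U.card ^ (m + d)`. If `x''` agrees with `x'` on `S` then `plE ι x''` and
`plE ι x'` agree on the entries within `U`. -/
def S_certE : Prop := ∀ {R J K m d q n : ℕ} (w : ℕ) (ι : Rw R J K n → Fin m → Fin q),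
  Function.Injective ι → ∀ f : (En (Fin m ⊕ Fin d) q Unit → Bool) → Prop, CertE w f →
  C1 (w ^ (m + d)) (fun x' : Rw R J K n × (Fin d → Fin q) → Bool => f (plE ι x'))

/-! ## E. Numbers and assembly -/

/-- the bound for the number of gates -/
def gatesT (r d' P M L s : ℕ) : ℕ :=
  ((P + 1) + M + L ^ r * (1 + M + (M + 1) ^ 2) ^ d') * (1 + (L ^ r * (2 * M + 1) ^ d' + 1) * s)

/-- the number of row groups: `R = J = q ^ (a + 1)`, `K = q ^ b`, `card (Rw n) = q ^ mm n a b` -/
def mm (n a b : ℕ) : ℕ := (a + 1) + n * (a + 1 + b)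

/-- `ν + μ + 2` for `A` with `(2 ^ q) ^ (h + 1)` elements -/
def Vn (n d h a b q : ℕ) : ℕ :=
  d * (q * (2 ^ q) ^ (h + 1)) +
    3 * (q ^ (a + 1) * (q ^ (a + 1) * (q ^ b * (((2 ^ q) ^ (h + 1)) ^ mm n a b *
      (q ^ d * ((d * q) * (2 ^ q) ^ (h + 1))))))) + 2

/-- [EWT num1] `Vn` is at most exponential in `q`. Proof: all factors are at most `2 ^ (c q)`
(`q ≤ 2 ^ q`, `3 ≤ 2 ^ (2 q)`, `d ≤ 2 ^ (d q)`). -/
def S_num1 : Prop := ∀ n d h a b : ℕ, ∃ C : ℕ, ∀ q : ℕ, 1 ≤ q →
  2 ^ (d * q) * Vn n d h a b q ≤ 2 ^ (C * q) ∧ d * q + Nat.log 2 (Vn n d h a b q) ≤ C * q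

/-- [EWT num] (uses num1) The choice of the numbers. `H = h + 1`, `Q = (2 ^ (h + 2)) ^ d`, `s' = q ^ a`,
`R = J = q ^ (a + 1)`, `K = q ^ b`, `m = mm n a b`, `s₀ = (2 P + 2) ^ d' * w ^ (m + d)`,
`N = L + P + 1`.

Proof. Let `γ' = max γ 0`, `γ' d' < d`; `a` a natural number with `a ≥ γ' + 4 + d`,
`b = 2 d + 2 a + 4`; `C` from `num1` (`C ≥ 1`). For `q ≥ 1`: `P ≤ c (C q) ^ γ' ≤ C₁ q ^ γ'`
(`x ^ γ ≤ x ^ γ'` for `x ≥ 1`), `M, L, s ≤ 2 ^ (c C q)`. So `gatesT ≤ 2 ^ (C₄ q)` for large `q`, with `C₄`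
independent of `w` (`P ≤ 2 ^ q` for large `q`), and `w = max (m + d) (C₄ + 1)` satisfies the fourth
inequality for large `q` (`CstE`, `h` and `Q` do not depend on `q`). `(2 P + 2) ^ d' ≤ C₅ q ^ (γ' d')`, so
`2 s₀ ≤ q ^ d` for large `q`; `8 s₀ q ^ d ≤ 4 q ^ (2 d) ≤ q ^ b`; `8 q ^ a q ^ (a + 1) ≤ q ^ b` for
`q ≥ 2`. `(P + 1) (M + 1) ^ P ≤ 2 ^ (q ^ (a - 1) / 2)` and `n N ^ n ≤ 2 ^ (q ^ 2)` for large `q`
(`P q ≤ C₁ q ^ (γ' + 1)`), `2 ^ (q ^ a)` and `2 ^ (q ^ (a + 1))` are larger. The last one: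
`(1 - 1 / Q) ^ (q ^ d) ≤ exp (- q ^ 2 / Q)` for `d ≥ 2` and `4 (q 2 ^ (q (h + 1))) ^ m ≤ 2 ^ (C₆ q)`. -/
def S_num : Prop := ∀ (n d d' h c : ℕ) (γ : ℝ), 2 ≤ d → γ * (d' : ℝ) < (d : ℝ) →
  ∃ q a b w : ℕ, 2 ≤ q ∧ 8 * d * q ≤ 2 ^ q ∧ mm n a b + d ≤ w ∧
    8 * q ^ a * q ^ (a + 1) ≤ q ^ b ∧
    4 * (q * (2 ^ q) ^ (h + 1)) ^ mm n a b * ((2 ^ (h + 2)) ^ d - 1) ^ (q ^ d) ≤
      ((2 ^ (h + 2)) ^ d) ^ (q ^ d) ∧
    ∀ M L P s : ℕ,
      M ≤ (2 ^ (d * q) * Vn n d h a b q) ^ c → L ≤ (2 ^ (d * q) * Vn n d h a b q) ^ c →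
      s ≤ (2 ^ (d * q) * Vn n d h a b q) ^ c →
      (P : ℝ) ≤ (c : ℝ) * ((d * q + Nat.log 2 (Vn n d h a b q) : ℕ) : ℝ) ^ γ →
      4 * ((h + 1) * (2 * gatesT (n + 1) d' P M L s *
        CstE (mm n a b + d) w ((2 ^ (h + 2)) ^ d))) < (2 ^ q) ^ (w + 1) ∧
      2 * ((2 * P + 2) ^ d' * w ^ (mm n a b + d)) ≤ q ^ d ∧
      8 * ((2 * P + 2) ^ d' * w ^ (mm n a b + d)) * q ^ d ≤ q ^ b ∧
      ((P : ℝ) + 1) * ((M : ℝ) + 1) ^ P *
        ((n : ℝ) * ((L + P + 1 : ℕ) : ℝ) ^ n / 2 ^ (q ^ a) + (1 / 2) ^ (q ^ (a + 1))) < 1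

/-- [EWT mainT] The main theorem; `t = r + 1`. Uses stagesE, orE, litE, embE, uniqE, neut, top, projT,
srcsatT, base, formT, outNT, certE, num, and `AC.S_lvcard`, `AC.S_subs`, `AC.S_str`. -/
def S_mainT : Prop := ∀ (r d d' : ℕ) (γ : ℝ), 1 ≤ r → 2 ≤ d → γ * (d' : ℝ) < (d : ℝ) →
  ¬ AC0RedT r γ d d'

end Pool.Agent.Lib.MP_b4f117_lc.AT
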